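import Pool.Agent.Q161.Zeck3

/-!
# MP_d0186b_co, Q1: the upper bound fails for squares

`sZ n` is the number of terms of the Zeckendorf expansion of `n`, `seqP P` is the sequence
`s_Z(P(n)) mod 2` and `MOC s N` is the maximum order complexity of the first `N` terms of `s`.

For `P = X ^ 2` the maximum order complexity is at least `N ^ (1/3) / 30` for all `N ≥ 77`, so it is
not of the order `N ^ (1 / (2 d)) = N ^ (1/4)`.

Proof. For odd `k` let `H k = L_{k+1}` be the Lucas number. Then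
`(n + H k)² = L_{2k+2} + 2 n H k + (n² + 2)`; if `100 n³ < φ^k`, the Zeckendorf expansions of the three
parts are separated and the expansion of `2 n H k` is shifted by `2` when `k` is replaced by `k + 2`,
hence `s_Z((n + H k)²) = s_Z((n + H (k+2))²)`. On the other hand, for `n = H (k+1)` these two values
are `s_Z(L_{k+3}²) = 3` and `s_Z(L_{k+4}²) = k + 3`, of different parity.
-/

namespace Pool.Agent.Results.MP_d0186b_co.SquaresExceedFourthRoot

open Pool.Agent.Q161.Zeck Polynomial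

theorem result :
    (∀ N : ℕ, 77 ≤ N → (1 / 30 : ℝ) * (N : ℝ) ^ (1 / 3 : ℝ) ≤ MOC (seqP (X ^ 2)) N) ∧
    ¬ ∀ P : ℤ[X], P.Monic → 2 ≤ P.natDegree → (∀ n : ℕ, 0 ≤ P.eval (n : ℤ)) →
      ∃ c C : ℝ, 0 < c ∧ 0 < C ∧ ∃ N₀ : ℕ, ∀ N ≥ N₀,
        c * (N : ℝ) ^ (1 / (2 * (P.natDegree : ℝ))) ≤ MOC (seqP P) N ∧
        (MOC (seqP P) N : ℝ) ≤ C * (N : ℝ) ^ (1 / (2 * (P.natDegree : ℝ))) := by
  have h1 : ∀ N : ℕ, 77 ≤ N → (1 / 30 : ℝ) * (N : ℝ) ^ (1 / 3 : ℝ) ≤ MOC (seqP (X ^ 2)) N := by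
    intro N hN
    apply cube_root_bound
    have h8 : H 8 = 76 := by decide
    omega
  refine ⟨h1, fun h => ?_⟩
  obtain ⟨c, C, hc, hC, N₀, hN₀⟩ := h (X ^ 2) (monic_X_pow 2) (by simp) (fun n => by
    rw [eval_pow, eval_X]
    positivity)
  have hd : (1 : ℝ) / (2 * ((X ^ 2 : ℤ[X]).natDegree : ℝ)) = 1 / 4 := by
    rw [natDegree_X_pow]
    norm_num
  rw [hd] at hN₀
  -- `N ^ (1/12)` is unbounded
  have ht : Filter.Tendsto (fun N : ℕ => (N : ℝ) ^ (1 / 12 : ℝ)) Filter.atTop Filter.atTop :=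
    (tendsto_rpow_atTop (by norm_num)).comp tendsto_natCast_atTop_atTop
  obtain ⟨N, hN1, hN2⟩ := ((ht.eventually_gt_atTop (30 * C)).and
    (Filter.eventually_ge_atTop (max 77 N₀))).exists
  have hN3 : 77 ≤ N := le_trans (le_max_left _ _) hN2
  have hN4 := (hN₀ N (le_trans (le_max_right _ _) hN2)).2
  have hN5 := h1 N hN3
  have hNpos : (0 : ℝ) < N := by
    have : 0 < N := by omega
    exact_mod_cast this
  have e : (N : ℝ) ^ (1 / 3 : ℝ) = (N : ℝ) ^ (1 / 12 : ℝ) * (N : ℝ) ^ (1 / 4 : ℝ) := by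
    rw [← Real.rpow_add hNpos]
    norm_num
  have h4 : 0 < (N : ℝ) ^ (1 / 4 : ℝ) := Real.rpow_pos_of_pos hNpos _
  rw [e] at hN5
  nlinarith

end Pool.Agent.Results.MP_d0186b_co.SquaresExceedFourthRoot
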